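import Pool.Agent.Helper186.DForms
import Pool.Agent.H718R2.G0
import Pool.Agent.Helper320.CQBasics

set_option autoImplicit false
set_option linter.unusedSectionVars false

/-!
# Fibred systems with an energy: definitions

`V n = ℝⁿ`, `DiffM n M r = Diff^r(M)` (`Pool/Agent/H718R2/G0.lean`).
-/

open scoped Manifold ContDiff Topology
open Set Filter MeasureTheory

universe u

namespace Pool.Agent.V8H2.PG

open Pool.Agent.H718R2.G

section fields

variable (n : ℕ) {M : Type u} [TopologicalSpace M] [ChartedSpace (V n) M]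

/-- `h` is a smooth function on `M`. -/
def SmFun (h : M → ℝ) : Prop := ContMDiff (𝓡 n) 𝓘(ℝ, ℝ) ∞ h

/-- The tangent space of `M` at `x`. -/
abbrev Tan (x : M) : Type := TangentSpace (𝓡 n) x

/-- `dh_x(v)`. -/
noncomputable def dd (h : M → ℝ) (x : M) (v : Tan n x) : ℝ := mfderiv (𝓡 n) 𝓘(ℝ, ℝ) h x v

/-- `dh_x = 0`. -/
def Crit (h : M → ℝ) (x : M) : Prop := ∀ v, dd n h x v = 0

variable {n}

variable [IsManifold (𝓡 n) ∞ M]

/-- `X` is a smooth vector field on `M`. -/
def SmoothField (X : (x : M) → Tan n x) : Prop :=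
  ContMDiff (𝓡 n) (𝓡 n).tangent ∞ (fun x => (⟨x, X x⟩ : TangentBundle (𝓡 n) M))

/-- `A` maps smooth functions to smooth vector fields, it is linear, `(A f)(x) = 0` if
`df_x = 0`, and `df(A f) ≥ 0`. In other words `A f = A df` for a smooth field of linear maps
`A_x : T*_x M → T_x M` with `ξ(A_x ξ) ≥ 0` for all covectors `ξ`. -/
structure Nonneg (A : (M → ℝ) → (x : M) → Tan n x) : Prop where
  smooth : ∀ f, SmFun n f → SmoothField (A f)
  lin : ∀ f g, SmFun n f → SmFun n g → ∀ (a : ℝ) (x : M),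
    A (fun y => f y + a * g y) x = A f x + a • A g x
  crit : ∀ f, SmFun n f → ∀ x, Crit n f x → A f x = 0
  nonneg : ∀ f, SmFun n f → ∀ x, 0 ≤ dd n f x (A f x)

/-- `φ` is the time-one map of the vector field `X`. -/
def TimeOne (X : (x : M) → Tan n x) (φ : M → M) : Prop :=
  ∀ x, ∃ γ : ℝ → M, IsMIntegralCurve (I := 𝓡 n) γ X ∧ γ 0 = x ∧ γ 1 = φ x

/-- The maps `S ∘ φ_1 ∘ … ∘ φ_m`, `m ≥ 0`, where each `φ_i` is the time-one map of a vector field
`A_i h`, with `A_i` as in `Nonneg`. -/
inductive Chain (S : M → M) (h : M → ℝ) : (M → M) → Prop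
  | base : Chain S h S
  | step (F : M → M) (A : (M → ℝ) → (x : M) → Tan n x) (φ : M → M) :
      Chain S h F → Nonneg A → TimeOne (A h) φ → Chain S h (F ∘ φ)

end fields

section fibres

/-- `z` is chain recurrent for the restriction of `S` to `K`: for every neighbourhood `W` of the
diagonal there is a closed `W`-pseudo-orbit through `z` in `K`. -/
def ChainRecOn {M : Type*} [TopologicalSpace M] (S : M → M) (K : Set M) (z : M) : Prop :=
  ∀ W : Set (M × M), IsOpen W → (∀ x, (x, x) ∈ W) →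
    ∃ (m : ℕ) (x : ℕ → M), 1 ≤ m ∧ x 0 = z ∧ x m = z ∧ (∀ i ≤ m, x i ∈ K) ∧
      ∀ i < m, (S (x i), x (i + 1)) ∈ W

/-- The chain recurrent points of the restriction of `S` to `K` are contained in finitely many
pairwise disjoint closed invariant transitive subsets of `K`. -/
def GoodOn {M : Type*} [TopologicalSpace M] (S : M → M) (K : Set M) : Prop :=
  ∃ (s : ℕ) (Λ : Fin s → Set M), (∀ i, IsClosed (Λ i)) ∧ (∀ i, Λ i ⊆ K) ∧
    (∀ i, S '' Λ i = Λ i) ∧ (∀ i j, i ≠ j → Disjoint (Λ i) (Λ j)) ∧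
    (∀ i, ∃ x ∈ Λ i, Λ i ⊆ closure (range fun k : ℕ => S^[k] x)) ∧
    ∀ z, ChainRecOn S K z → ∃ i, z ∈ Λ i

/-- `E` is a null set of the manifold `Q` (for Lebesgue measure in all charts). -/
def NullSet (k : ℕ) {Q : Type u} [TopologicalSpace Q] [ChartedSpace (V k) Q] (E : Set Q) : Prop :=
  ∀ χ ∈ IsManifold.maximalAtlas (𝓡 k) ∞ Q, volume (χ '' (E ∩ χ.source)) = 0

section subm

variable (n k : ℕ) {M Q : Type u} [TopologicalSpace M] [ChartedSpace (V n) M]
    [TopologicalSpace Q] [ChartedSpace (V k) Q]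

/-- `π` is smooth. -/
def SmMap (π : M → Q) : Prop := ContMDiff (𝓡 n) (𝓡 k) ∞ π

/-- `d(f ∘ π)_x = 0` only if `df_{π(x)} = 0`, for all smooth functions `f` on `Q` and `x ∈ M`. In
other words the differentials of `π` are surjective: `π` is a submersion. -/
def Subm (π : M → Q) : Prop :=
  ∀ f : Q → ℝ, SmFun k f → ∀ x : M, Crit n (fun y => f (π y)) x → Crit k f (π x)

end subm

section flow

variable (n : ℕ) {M Q : Type u} [TopologicalSpace M] [ChartedSpace (V n) M]

/-- `R` is a smooth flow on `M` which maps the fibres of `π` to themselves. -/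
structure FlowAlong (π : M → Q) (R : ℝ → M → M) : Prop where
  smooth : ContMDiff (𝓘(ℝ, ℝ).prod (𝓡 n)) (𝓡 n) ∞ (fun p : ℝ × M => R p.1 p.2)
  zero : ∀ x, R 0 x = x
  add : ∀ s t x, R (s + t) x = R s (R t x)
  fib : ∀ t x, π (R t x) = π x

/-- For some smooth flow `R` along the fibres (for instance `R t = id` for all `t`), the map
`R t ∘ S` is, for almost all `q` and almost all `t`, good on the fibre over `q`. -/
def AeGood (k : ℕ) [TopologicalSpace Q] [ChartedSpace (V k) Q] (π : M → Q) (S : M → M) : Prop :=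
  ∃ R : ℝ → M → M, FlowAlong n π R ∧
    NullSet k {q | ¬ ∀ᵐ t : ℝ, GoodOn (fun x => R t (S x)) (π ⁻¹' {q})}

/-- The fibres of `π` are the orbits of a free smooth action `R` of the circle `ℝ/ℤ`, and `S` acts
on each of them as an orientation preserving `C²` diffeomorphism of the circle, whose lift to `ℝ`
is `f` (`Lift f`: `f` is `C²`, `f(t+1) = f(t)+1`, `f' > 0`). -/
def CircleFibres (π : M → Q) (S : M → M) : Prop :=
  ∃ R : ℝ → M → M, FlowAlong n π R ∧ (∀ t x, R t x = x ↔ ∃ m : ℤ, t = m) ∧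
    (∀ x y, π x = π y → ∃ t, y = R t x) ∧
    ∀ x, ∃ f : ℝ → ℝ, Helper320.CQ.Lift f ∧ ∀ t, S (R t x) = R (f t) x

end flow

/-- `π` is a smooth submersion, `S` maps every fibre of `π` to itself, and the fibres are circles,
or `S` is good on almost all fibres in the sense of `AeGood`; `η` is a smooth function on the
base. -/
structure FibreData (n k : ℕ) {M Q : Type u} [TopologicalSpace M] [ChartedSpace (V n) M]
    [TopologicalSpace Q] [ChartedSpace (V k) Q] (π : M → Q) (S : M → M) (η : Q → ℝ) : Prop where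
  smooth : SmMap n k π
  subm : Subm n k π
  fib : ∀ x, π (S x) = π x
  good : CircleFibres n π S ∨ AeGood n k π S
  energy : SmFun k η

/-- `F = S ∘ φ_1 ∘ … ∘ φ_m`, `m ≥ 0`: there are a closed manifold `Q`, a submersion `π : M → Q`,
a diffeomorphism `S` and a function `η` as in `FibreData`, and each `φ_i` is the time-one map of a
vector field `A_i (η ∘ π)`, with `A_i` as in `Nonneg`. -/
def Fibred (n : ℕ) {M : Type u} [TopologicalSpace M] [ChartedSpace (V n) M]
    [IsManifold (𝓡 n) ∞ M] {r : ℕ∞} (F : DiffM n M r) : Prop :=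
  ∃ (k : ℕ) (Q : Type u) (_ : TopologicalSpace Q) (_ : T2Space Q) (_ : CompactSpace Q)
    (_ : ChartedSpace (V k) Q) (_ : IsManifold (𝓡 k) ∞ Q) (π : M → Q) (S : DiffM n M r)
    (η : Q → ℝ), FibreData n k π S η ∧ Chain (n := n) S (fun x => η (π x)) F

end fibres

end Pool.Agent.V8H2.PG
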