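import Pool.Agent.V8H61.PM.EM
import Pool.Agent.V8H2.PG.Defs

set_option autoImplicit false
set_option maxSynthPendingDepth 3
set_option linter.unusedSectionVars false

/-!
# The critical points of generic functions avoid a null set

The proofs follow helper61 (V8H61/PM/Gen, Crit, EM).
-/

open scoped Manifold ContDiff Topology
open Set Filter Metric MeasureTheory Function Module

universe u

namespace Pool.Agent.V8H2.PG

open Pool.Agent.H718R2.G Pool.Agent.V8H61.PM Pool.Agent.Y318.MN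

section abs

variable {P0 C D : Type*} [NormedAddCommGroup P0] [NormedSpace ℝ P0] [FiniteDimensional ℝ P0]
  [NormedAddCommGroup C] [NormedSpace ℝ C] [FiniteDimensional ℝ C]
  [NormedAddCommGroup D] [NormedSpace ℝ D] [FiniteDimensional ℝ D]
  [MeasurableSpace C] [BorelSpace C] [MeasurableSpace P0] [BorelSpace P0]

theorem abs_avoid (μ : Measure C) [μ.IsAddHaarMeasure] (hdim : finrank ℝ D = finrank ℝ P0)
    {r : ℝ} (hr : 0 < r) {a : P0 → C →L[ℝ] D} (ha : DifferentiableOn ℝ a (ball 0 r))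
    (hsurj : Function.Surjective (a 0)) {α : P0 → D} (hα : DifferentiableOn ℝ α (ball 0 r))
    (ν₀ : Measure P0) [ν₀.IsAddHaarMeasure] {S : Set P0} (hS : ν₀ S = 0) :
    ∃ r', 0 < r' ∧ r' ≤ r ∧ ∀ᵐ c ∂μ, ∀ u ∈ ball (0 : P0) r', α u + a u c = 0 → u ∉ S := by
  classical
  have : CompleteSpace D := FiniteDimensional.complete ℝ D
  obtain ⟨R, hR⟩ := ContinuousLinearMap.exists_rightInverse_of_surjective (a 0)
    (LinearMap.range_eq_top.2 hsurj)
  have h0 : (0 : P0) ∈ ball (0 : P0) r := mem_ball_self hr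
  set A : P0 → D →L[ℝ] D := fun u => (a u).comp R with hA
  have hA0 : A 0 = 1 := hR
  have hAd : DifferentiableOn ℝ A (ball 0 r) := fun u hu =>
    ((ha u hu).clm_comp (differentiableWithinAt_const R))
  have hAc : ContinuousAt A 0 := (hAd.differentiableAt (ball_mem_nhds _ hr)).continuousAt
  have hU1 : ∀ᶠ u in 𝓝 (0 : P0), IsUnit (A u) := by
    apply hAc.eventually
    exact Units.isOpen.mem_nhds (by rw [hA0]; exact isUnit_one)
  set inv : P0 → D →L[ℝ] D := fun u => Ring.inverse (A u) with hinv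
  obtain ⟨r1, hr1, hr1'⟩ := Metric.eventually_nhds_iff_ball.1 hU1
  refine ⟨min r r1, lt_min hr hr1, min_le_left _ _, ?_⟩
  set r' := min r r1 with hr'
  have hsub : ball (0 : P0) r' ⊆ ball 0 r := ball_subset_ball (min_le_left _ _)
  have hunit : ∀ u ∈ ball (0 : P0) r', IsUnit (A u) := fun u hu =>
    hr1' u (ball_subset_ball (min_le_right _ _) hu)
  -- the model of the parameter space
  set K := LinearMap.ker (a 0 : C →ₗ[ℝ] D) with hK
  have hfr : finrank ℝ C = finrank ℝ (P0 × K) := by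
    have h3 := LinearMap.finrank_range_add_finrank_ker (a 0 : C →ₗ[ℝ] D)
    rw [LinearMap.range_eq_top.2 hsurj, finrank_top] at h3
    rw [Module.finrank_prod, ← hdim, h3]
  set e : C ≃L[ℝ] (P0 × K) := ContinuousLinearEquiv.ofFinrankEq hfr with he
  let _ : MeasurableSpace K := borel K
  have : BorelSpace K := ⟨rfl⟩
  set μK : Measure K := Measure.addHaar with hμK
  set ν : Measure (P0 × K) := ν₀.prod μK with hν
  set U : Set (P0 × K) := {p | p.1 ∈ ball (0 : P0) r'} with hUdef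
  set Φ : P0 × K → C := fun p => (p.2 : C) - R (inv p.1 (α p.1 + a p.1 p.2)) with hΦ
  have hinvd : ∀ u ∈ ball (0 : P0) r', DifferentiableAt ℝ inv u := by
    intro u hu
    have h3 : DifferentiableAt ℝ A u := hAd.differentiableAt (isOpen_ball.mem_nhds (hsub hu))
    exact (differentiableAt_inverse (hunit u hu)).comp u h3
  have hΦd : ∀ p ∈ U, DifferentiableAt ℝ Φ p := by
    intro p hp
    have hp1 : p.1 ∈ ball (0 : P0) r' := hp
    have hf : DifferentiableAt ℝ (fun p : P0 × K => p.1) p := differentiableAt_fst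
    have hs : DifferentiableAt ℝ (fun p : P0 × K => (p.2 : C)) p :=
      (K.subtypeL.differentiableAt).comp p differentiableAt_snd
    have d1 : DifferentiableAt ℝ (fun p : P0 × K => inv p.1) p :=
      DifferentiableAt.comp (f := fun p : P0 × K => p.1) p (hinvd p.1 hp1) hf
    have d2 : DifferentiableAt ℝ (fun p : P0 × K => α p.1) p :=
      DifferentiableAt.comp (f := fun p : P0 × K => p.1) p
        (hα.differentiableAt (isOpen_ball.mem_nhds (hsub hp1))) hf
    have d3 : DifferentiableAt ℝ (fun p : P0 × K => a p.1) p :=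
      DifferentiableAt.comp (f := fun p : P0 × K => p.1) p
        (ha.differentiableAt (isOpen_ball.mem_nhds (hsub hp1))) hf
    exact hs.sub (R.differentiableAt.comp p (d1.clm_apply (d2.add (d3.clm_apply hs))))
  set Z : Set (P0 × K) := U ∩ (S ×ˢ univ) with hZ
  have hZ0 : ν Z = 0 := by
    refine measure_mono_null inter_subset_right ?_
    rw [hν, Measure.prod_prod, hS, zero_mul]
  -- the image
  have hΦe : DifferentiableOn ℝ (fun p => e (Φ p)) Z := fun p hp =>
    (e.differentiableAt.comp p (hΦd p hp.1)).differentiableWithinAt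
  have him : ν ((fun p => e (Φ p)) '' Z) = 0 :=
    addHaar_image_eq_zero_of_differentiableOn_of_addHaar_eq_zero ν hΦe hZ0
  have hac2 : μ.map e ≪ ν := Measure.absolutelyContinuous_isAddHaarMeasure _ _
  have h5 : (μ.map e) ((fun p => e (Φ p)) '' Z) = 0 := hac2 him
  have h6 : μ (e ⁻¹' ((fun p => e (Φ p)) '' Z)) = 0 := by
    have hme : Measurable e := e.continuous.measurable
    exact nonpos_iff_eq_zero.1 (le_trans (Measure.le_map_apply hme.aemeasurable _) (le_of_eq h5))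
  rw [measure_eq_zero_iff_ae_notMem] at h6
  filter_upwards [h6] with c hc u hu hcrit huS
  apply hc
  -- `c = Φ (u, κ)`
  set κ : C := c - R (a 0 c) with hκ
  have hκK : κ ∈ K := by
    show a 0 (c - R (a 0 c)) = 0
    rw [map_sub]
    have : a 0 (R (a 0 c)) = a 0 c := by
      have := congrArg (fun T => T (a 0 c)) hR
      exact this
    rw [this, sub_self]
  have hΦc : Φ (u, ⟨κ, hκK⟩) = c := by
    rw [hΦ]
    simp only
    have e3 : α u + a u κ = -(A u (a 0 c)) := by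
      rw [hκ, map_sub]
      have : a u (R (a 0 c)) = A u (a 0 c) := rfl
      rw [this]
      have := hcrit
      rw [← add_sub_assoc, this, zero_sub]
    have hiu := hunit u hu
    have e4 : inv u (A u (a 0 c)) = a 0 c := by
      have h7 : Ring.inverse (A u) * A u = 1 := Ring.inverse_mul_cancel _ hiu
      have := congrArg (fun T => T (a 0 c)) h7
      exact this
    rw [e3, map_neg, map_neg, sub_neg_eq_add, e4, hκ, sub_add_cancel]
  refine ⟨(u, ⟨κ, hκK⟩), ⟨hu, huS, mem_univ _⟩, ?_⟩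
  show e (Φ _) = e c
  rw [hΦc]

end abs

section gen

variable {C P : Type*}
  [NormedAddCommGroup C] [NormedSpace ℝ C] [FiniteDimensional ℝ C]
  [NormedAddCommGroup P] [NormedSpace ℝ P] [FiniteDimensional ℝ P]
  [MeasurableSpace C] [BorelSpace C] [MeasurableSpace P] [BorelSpace P]

/-- for almost every member of the family the critical points near `0` avoid a null set -/
theorem gen_avoid (μ : Measure C) [μ.IsAddHaarMeasure] (ν₀ : Measure P) [ν₀.IsAddHaarMeasure]
    {S : Set P} (hS : ν₀ S = 0)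
    {g : P → (C →L[ℝ] ℝ)} (hg : ContDiffAt ℝ 3 g 0) {h : P → ℝ} (hh : ContDiffAt ℝ 3 h 0)
    (S1 : ∀ ℓ : P →L[ℝ] ℝ, ∃ c : C, fderiv ℝ (fun v => g v c) 0 = ℓ) :
    ∃ r, 0 < r ∧ ∀ᵐ c ∂μ, ∀ u : P, ‖u‖ < r → fderiv ℝ (fun v => h v + g v c) u = 0 → u ∉ S := by
  classical
  have hgh : ∀ᶠ v in 𝓝 (0 : P), ContDiffAt ℝ 3 g v ∧ ContDiffAt ℝ 3 h v :=
    (hg.eventually three_ne).and (hh.eventually three_ne)
  obtain ⟨r, hr, hr'⟩ := Metric.eventually_nhds_iff_ball.1 hgh
  set fl : (P →L[ℝ] C →L[ℝ] ℝ) →L[ℝ] (C →L[ℝ] P →L[ℝ] ℝ) :=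
    ((ContinuousLinearMap.flipₗᵢ ℝ P C ℝ).toContinuousLinearEquiv :
      (P →L[ℝ] C →L[ℝ] ℝ) →L[ℝ] (C →L[ℝ] P →L[ℝ] ℝ)) with hfl
  set a : P → C →L[ℝ] (P →L[ℝ] ℝ) := fun u => fl (fderiv ℝ g u) with ha
  set α : P → (P →L[ℝ] ℝ) := fun u => fderiv ℝ h u with hα
  have had : DifferentiableOn ℝ a (ball 0 r) := fun u hu =>
    (fl.differentiableAt.comp u (((hr' u hu).1.fderiv_right (m := 1)
      (by norm_num)).differentiableAt (by simp))).differentiableWithinAt
  have hαd : DifferentiableOn ℝ α (ball 0 r) := fun u hu =>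
    (((hr' u hu).2.fderiv_right (m := 1) (by norm_num)).differentiableAt
      (by simp)).differentiableWithinAt
  have h0g : DifferentiableAt ℝ g 0 := hg.differentiableAt (by simp)
  have hone : ∀ c, fderiv ℝ (fun v => g v c) 0 = (fderiv ℝ g 0).flip c := by
    intro c
    have h1 := fd_one (h := fun _ => (0:ℝ)) h0g (differentiableAt_const _) c
    simpa using h1
  have hsurj : Function.Surjective (a 0) := by
    intro ℓ
    obtain ⟨c, hc⟩ := S1 ℓ
    refine ⟨c, ?_⟩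
    rw [← hc, hone]
    rfl
  obtain ⟨r', hr'0, hr'r, hae⟩ := abs_avoid μ (finrank_dual' P) hr had hsurj hαd ν₀ hS
  refine ⟨r', hr'0, ?_⟩
  filter_upwards [hae] with c hc u hur hcrit
  have hub : u ∈ ball (0 : P) r' := by
    rw [mem_ball_zero_iff]
    exact hur
  have hur2 : u ∈ ball (0 : P) r := ball_subset_ball hr'r hub
  obtain ⟨hgu, hhu⟩ := hr' u hur2
  refine hc u hub ?_
  rw [fd_one (hgu.differentiableAt (by simp)) (hhu.differentiableAt (by simp))] at hcrit
  exact hcrit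

end gen

section mfd

variable {k : ℕ} {Q : Type u} [TopologicalSpace Q] [T2Space Q] [ChartedSpace (V k) Q]
  [IsManifold (𝓡 k) ∞ Q]

variable {m : ℕ}

theorem local_avoid {e : Q → EuclideanSpace ℝ (Fin m)}
    (he : ContMDiff (𝓡 k) (𝓡 m) ∞ e)
    (hed : ∀ x, Injective (mfderiv (𝓡 k) (𝓡 m) e x)) {h : Q → ℝ}
    (hh : ContMDiff (𝓡 k) 𝓘(ℝ, ℝ) ∞ h) {S : Set Q} (hS : NullSet k S) (x0 : Q) :
    ∃ U ∈ 𝓝 x0, ∀ᵐ c : (Fin (3 * 1 + 2) → Option (Fin m)) → ℝ, ∀ x ∈ U,
      IsCrit k (hcf (id : Q → Q) 1 e h c) x → x ∉ S := by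
  classical
  set ψ := chartAt (V k) x0 with hψ
  have hψa : ψ ∈ IsManifold.maximalAtlas (𝓡 k) ∞ Q := IsManifold.chart_mem_maximalAtlas x0
  have hx0 : x0 ∈ ψ.source := mem_chart_source (V k) x0
  set p := ψ x0 with hp
  have hpt : p ∈ ψ.target := ψ.map_source hx0
  have hsp : ψ.symm p = x0 := ψ.left_inv hx0
  have hsymm : ∀ v ∈ ψ.target, ContMDiffAt (𝓡 k) (𝓡 k) ∞ ψ.symm v := fun v hv =>
    (contMDiffOn_symm_of_mem_maximalAtlas hψa _ hv).contMDiffAt (ψ.open_target.mem_nhds hv)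
  have hcoe : ∀ x ∈ ψ.source, ContMDiffAt (𝓡 k) (𝓡 k) ∞ ψ x := fun x hx =>
    (contMDiffOn_of_mem_maximalAtlas hψa _ hx).contMDiffAt (ψ.open_source.mem_nhds hx)
  have h0p : (0 : V k) + p = p := zero_add p
  have key : ∀ {F' : Type} [NormedAddCommGroup F'] [NormedSpace ℝ F'] (f : Q → F'),
      ContMDiff (𝓡 k) 𝓘(ℝ, F') ∞ f → ∀ v ∈ ψ.target, ContDiffAt ℝ 3 (fun w => f (ψ.symm w)) v := by
    intro F' _ _ f hf v hv
    have h1 : ContMDiffAt (𝓡 k) 𝓘(ℝ, F') ∞ (fun w => f (ψ.symm w)) v :=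
      (hf.contMDiffAt).comp v (hsymm v hv)
    exact (contMDiffAt_iff_contDiffAt.1 h1).of_le (by norm_cast)
  have key2 : ∀ {F' : Type} [NormedAddCommGroup F'] [NormedSpace ℝ F'] (f : Q → F'),
      ContMDiff (𝓡 k) 𝓘(ℝ, F') ∞ f → ContDiffAt ℝ 3 (fun v => f (ψ.symm (v + p))) 0 := by
    intro F' _ _ f hf
    have h1 : ContDiffAt ℝ 3 (fun v : V k => v + p) 0 := contDiffAt_id.add contDiffAt_const
    have h2 := key f hf p hpt
    have e : p = (fun v : V k => v + p) 0 := by simp only [zero_add]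
    rw [e] at h2
    exact ContDiffAt.comp (g := fun w => f (ψ.symm w)) (f := fun v : V k => v + p) 0 h2 h1
  set E : ℕ → V k → EuclideanSpace ℝ (Fin m) := fun _ v => e (ψ.symm (v + p)) with hE
  have hEk : ∀ j < 1, ContDiffAt ℝ 3 (E j) 0 := fun j _ => key2 e he
  have hinj : Injective (fderiv ℝ (E 0) 0) := by
    have e1 : fderiv ℝ (E 0) 0 = fderiv ℝ (fun w => e (ψ.symm w)) p := by
      have := fderiv_comp_add_right (𝕜 := ℝ) (f := fun w => e (ψ.symm w)) (x := (0 : V k)) p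
      rw [h0p] at this
      exact this
    rw [e1]
    have hs1 : MDifferentiableAt (𝓡 k) (𝓡 k) ψ.symm p := (hsymm p hpt).mdifferentiableAt (by simp)
    have he1 : MDifferentiableAt (𝓡 k) (𝓡 m) e (ψ.symm p) := he.mdifferentiableAt (by simp)
    have h5 := mfderiv_comp (I := 𝓡 k) (I' := 𝓡 k) (I'' := 𝓡 m) p he1 hs1
    rw [mfderiv_eq_fderiv] at h5
    have h6 : Injective (mfderiv (𝓡 k) (𝓡 k) ψ.symm p) := by
      have hc1 : MDifferentiableAt (𝓡 k) (𝓡 k) ψ (ψ.symm p) :=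
        (hcoe _ (by rw [hsp]; exact hx0)).mdifferentiableAt (by simp)
      have h7 := mfderiv_comp (I := 𝓡 k) (I' := 𝓡 k) (I'' := 𝓡 k) p hc1 hs1
      have e2 : (ψ ∘ ψ.symm) =ᶠ[𝓝 p] id := by
        filter_upwards [ψ.open_target.mem_nhds hpt] with w hw
        exact ψ.right_inv hw
      rw [e2.mfderiv_eq, mfderiv_id] at h7
      intro a b hab
      have h8 := congrArg (fun A : V k →L[ℝ] V k => A a) h7
      have h9 := congrArg (fun A : V k →L[ℝ] V k => A b) h7
      have h10 : a = mfderiv (𝓡 k) (𝓡 k) ψ (ψ.symm p) (mfderiv (𝓡 k) (𝓡 k) ψ.symm p a) := h8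
      have h11 : b = mfderiv (𝓡 k) (𝓡 k) ψ (ψ.symm p) (mfderiv (𝓡 k) (𝓡 k) ψ.symm p b) := h9
      rw [h10, h11, hab]
    have h12 : fderiv ℝ (fun w => e (ψ.symm w)) p =
      (mfderiv (𝓡 k) (𝓡 m) e (ψ.symm p)).comp (mfderiv (𝓡 k) (𝓡 k) ψ.symm p) := h5
    rw [h12]
    have h13 : Injective (mfderiv (𝓡 k) (𝓡 m) e (ψ.symm p)) := by rw [hsp]; exact hed x0
    exact h13.comp h6
  set S' : Set (V k) := (fun v => v + p) ⁻¹' (ψ '' (S ∩ ψ.source)) with hS'
  have hS'0 : volume S' = 0 := by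
    rw [hS', measure_preimage_add_right]
    exact hS ψ hψa
  obtain ⟨r, hr, hae⟩ := gen_avoid
    (volume : Measure ((Fin (3 * 1 + 2) → Option (Fin m)) → ℝ)) (volume : Measure (V k)) hS'0
    (gf_cd (E := E) (q := 1) (3 * 1 + 2) hEk) (key2 h hh)
    (fun ℓ => by
      obtain ⟨c, hc⟩ := family_S1 (le_refl 1) hEk ⊤
        (fun j hj _ p _ => by
          have : j = 0 := by omega
          rw [this]) hinj (ℓ.comp (⊤ : Submodule ℝ (V k)).subtypeL)
      refine ⟨c, ContinuousLinearMap.ext fun v => ?_⟩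
      exact hc ⟨v, Submodule.mem_top⟩)
  have hfun : ∀ c v, hcf (id : Q → Q) 1 e h c (ψ.symm (v + p)) =
      h (ψ.symm (v + p)) + gf E 1 (3 * 1 + 2) v c := by
    intro c v
    rw [gf_apply]
    unfold hcf gN
    simp only [Finset.range_one, Finset.sum_singleton, iterate_zero, id]
    rfl
  refine ⟨ψ.source ∩ ψ ⁻¹' ball p r, ?_, ?_⟩
  · exact inter_mem (ψ.open_source.mem_nhds hx0)
      ((ψ.continuousAt hx0).preimage_mem_nhds (ball_mem_nhds _ hr))
  · filter_upwards [hae] with c hc x hx hcrit hxS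
    obtain ⟨hxs, hxb⟩ := hx
    have hsm := hcf_smooth (contMDiff_id : ContMDiff (𝓡 k) (𝓡 k) ∞ (id : Q → Q)) 1 he hh c
    have h1 := (crit_iff hsm hψa hxs).1 hcrit
    have hu : ‖ψ x - p‖ < r := by
      have : dist (ψ x) p < r := hxb
      rwa [dist_eq_norm] at this
    refine hc (ψ x - p) hu ?_ ?_
    · have h2 : (fun v => h (ψ.symm (v + p)) + gf E 1 (3 * 1 + 2) v c) =
          fun v => (fun w => hcf (id : Q → Q) 1 e h c (ψ.symm w)) (v + p) :=
        funext fun v => (hfun c v).symm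
      have h3 := fderiv_comp_add_right (𝕜 := ℝ) (f := fun w => hcf (id : Q → Q) 1 e h c (ψ.symm w))
        (x := ψ x - p) p
      rw [sub_add_cancel] at h3
      rw [h2]
      exact h3.trans h1
    · show ψ x - p + p ∈ ψ '' (S ∩ ψ.source)
      rw [sub_add_cancel]
      exact ⟨x, ⟨hxS, hxs⟩, rfl⟩

/-- **The critical points of generic functions avoid a null set.** -/
theorem ae_avoid [CompactSpace Q] {e : Q → EuclideanSpace ℝ (Fin m)}
    (he : ContMDiff (𝓡 k) (𝓡 m) ∞ e)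
    (hed : ∀ x, Injective (mfderiv (𝓡 k) (𝓡 m) e x)) {h : Q → ℝ}
    (hh : ContMDiff (𝓡 k) 𝓘(ℝ, ℝ) ∞ h) {S : Set Q} (hS : NullSet k S) :
    ∀ᵐ c : (Fin (3 * 1 + 2) → Option (Fin m)) → ℝ, ∀ x,
      IsCrit k (hcf (id : Q → Q) 1 e h c) x → x ∉ S := by
  choose U hU hUae using local_avoid he hed hh hS
  obtain ⟨t, -, ht⟩ := isCompact_univ.elim_nhds_subcover U fun x _ => hU x
  have hall : ∀ᵐ c : (Fin (3 * 1 + 2) → Option (Fin m)) → ℝ, ∀ x0 ∈ t, ∀ x ∈ U x0,
      IsCrit k (hcf (id : Q → Q) 1 e h c) x → x ∉ S := by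
    have := (ae_ball_iff (μ := (volume : Measure ((Fin (3 * 1 + 2) → Option (Fin m)) → ℝ)))
      (S := (t : Set Q)) t.countable_toSet
      (p := fun c x0 _ => ∀ x ∈ U x0, IsCrit k (hcf (id : Q → Q) 1 e h c) x → x ∉ S)).2
      fun x0 _ => hUae x0
    exact this
  filter_upwards [hall] with c hc x
  obtain ⟨x0, hx0, hx⟩ := mem_iUnion₂.1 (ht (mem_univ x))
  exact hc x0 hx0 x hx

end mfd

end Pool.Agent.V8H2.PG
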