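import Pool.Agent.V8H2.PG.Fam

set_option autoImplicit false
set_option linter.unusedSectionVars false

/-!
# The maps `σ ∘ φ_1 ∘ … ∘ φ_m` in smooth families
-/

open scoped Manifold ContDiff Topology
open Set Filter MeasureTheory

universe u

noncomputable section

namespace Pool.Agent.V8H2.PG

open Pool.Agent.H718R2.G Pool.Agent.Helper186 Pool.Agent.H826R2.Wein

variable {n : ℕ} {N : Type u} [TopologicalSpace N] [T2Space N] [CompactSpace N]
  [ChartedSpace (V n) N] [IsManifold (𝓡 n) ∞ N]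

/-- smooth functions -/
abbrev SmF (n : ℕ) {N : Type u} [TopologicalSpace N] [ChartedSpace (V n) N] (f : N → ℝ) : Prop :=
  ContMDiff (𝓡 n) 𝓘(ℝ, ℝ) ∞ f

/-- the differential -/
noncomputable def dif (n : ℕ) {N : Type u} [TopologicalSpace N] [ChartedSpace (V n) N]
    (h : N → ℝ) (x : N) : TangentSpace (𝓡 n) x →L[ℝ] ℝ :=
  mfderiv (𝓡 n) 𝓘(ℝ, ℝ) h x

theorem crit_iff {f : N → ℝ} {x : N} : Crit n f x ↔ dif n f x = 0 :=
  ⟨fun h => ContinuousLinearMap.ext fun v => h v, fun h v => congrArg (fun T => T v) h⟩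

theorem SmF.hasD {f : N → ℝ} (hf : SmF n f) (x : N) :
    HasMFDerivAt (𝓡 n) 𝓘(ℝ, ℝ) f x (dif n f x) :=
  (hf.mdifferentiableAt (by simp)).hasMFDerivAt

theorem dif_add {f g : N → ℝ} (hf : SmF n f) (hg : SmF n g) (x : N) :
    dif n (fun y => f y + g y) x = dif n f x + dif n g x :=
  ((hf.hasD x).add (hg.hasD x)).mfderiv

theorem dif_smul {f : N → ℝ} (hf : SmF n f) (a : ℝ) (x : N) :
    dif n (fun y => a * f y) x = a • dif n f x :=
  ((hf.hasD x).const_smul a).mfderiv

variable {ι : Type} [Fintype ι]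

/-- the function `H + ∑ c_i g_i` -/
def cf (H : N → ℝ) (g : ι → N → ℝ) (c : ι → ℝ) (x : N) : ℝ := H x + ∑ i, c i * g i x

theorem cf_smooth {H : N → ℝ} (hH : SmF n H) {g : ι → N → ℝ} (hg : ∀ i, SmF n (g i))
    (c : ι → ℝ) : SmF n (cf H g c) :=
  hH.add (contMDiff_finsetSum fun i _ => contMDiff_const.mul (hg i))

theorem dif_cf {H : N → ℝ} (hH : SmF n H) {g : ι → N → ℝ} (hg : ∀ i, SmF n (g i))
    (c : ι → ℝ) (x : N) : dif n (cf H g c) x = dif n H x + ∑ i, c i • dif n (g i) x := by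
  classical
  have h1 : ∀ s : Finset ι, SmF n (fun y => ∑ i ∈ s, c i * g i y) ∧
      dif n (fun y => ∑ i ∈ s, c i * g i y) x = ∑ i ∈ s, c i • dif n (g i) x := by
    intro s
    induction s using Finset.induction_on with
    | empty =>
      simp only [Finset.sum_empty]
      refine ⟨contMDiff_const, ?_⟩
      exact mfderiv_const
    | insert i s hi ih =>
      have k1 : SmF n (fun y => c i * g i y) := contMDiff_const.mul (hg i)
      simp only [Finset.sum_insert hi]
      exact ⟨k1.add ih.1, by rw [dif_add k1 ih.1, ih.2, dif_smul (hg i)]⟩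
  have h2 := h1 Finset.univ
  have h3 := dif_add hH h2.1 x
  rw [h2.2] at h3
  exact h3

/-- `A h` for `h = H + ∑ c_i g_i` -/
theorem comb_eq {A : (N → ℝ) → (x : N) → TangentSpace (𝓡 n) x} (hA : Nonneg A)
    {H : N → ℝ} (hH : SmF n H) {g : ι → N → ℝ} (hg : ∀ i, SmF n (g i)) (c : ι → ℝ) (x : N) :
    comb (A H) (fun i => A (g i)) c x = A (cf H g c) x := by
  classical
  have h1 : ∀ s : Finset ι, SmF n (fun y => H y + ∑ i ∈ s, c i * g i y) ∧
      A (fun y => H y + ∑ i ∈ s, c i * g i y) x = A H x + ∑ i ∈ s, c i • A (g i) x := by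
    intro s
    induction s using Finset.induction_on with
    | empty =>
      simp only [Finset.sum_empty, add_zero]
      exact ⟨hH, trivial⟩
    | insert i s hi ih =>
      have k0 : (fun y => H y + ∑ j ∈ insert i s, c j * g j y) =
          fun y => (fun z => H z + ∑ j ∈ s, c j * g j z) y + c i * g i y := by
        funext y
        rw [Finset.sum_insert hi]
        ring
      rw [k0]
      refine ⟨ih.1.add (contMDiff_const.mul (hg i)), ?_⟩
      rw [hA.lin _ _ ih.1 (hg i), ih.2, Finset.sum_insert hi]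
      abel
  exact (h1 Finset.univ).2.symm

/-- the derivative of a function along an integral curve -/
theorem deriv_along {W : (x : N) → TangentSpace (𝓡 n) x} {c : ℝ → N}
    (hc : IsMIntegralCurve (I := 𝓡 n) c W) {f : N → ℝ} (hf : SmF n f) (t : ℝ) :
    HasDerivAt (fun s => f (c s)) (dif n f (c t) (W (c t))) t :=
  hasDerivAt_along (hc t) hf

theorem mono_along {W : (x : N) → TangentSpace (𝓡 n) x} {c : ℝ → N}
    (hc : IsMIntegralCurve (I := 𝓡 n) c W) {f : N → ℝ} (hf : SmF n f)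
    (hW : ∀ x, 0 ≤ dif n f x (W x)) : Monotone fun s => f (c s) :=
  monotone_of_deriv_nonneg (fun t => (deriv_along hc hf t).differentiableAt)
    fun t => by rw [(deriv_along hc hf t).deriv]; exact hW _

/-- constant integral curves -/
theorem fixed_of_zero {W : (x : N) → TangentSpace (𝓡 n) x} (hW : SmoothField W) {c : ℝ → N}
    (hc : IsMIntegralCurve (I := 𝓡 n) c W) (h0 : W (c 0) = 0) (t : ℝ) : c t = c 0 := by
  have h1 : IsMIntegralCurve (I := 𝓡 n) (fun _ : ℝ => c 0) W := isMIntegralCurve_const h0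
  exact congrFun (unique hW hc h1 rfl) t

/-- **Smooth families.** -/
theorem chain_family {r : ℕ∞} (S : DiffM n N r) {H : N → ℝ} (hH : SmF n H)
    (hHS : ∀ x, H (S x) = H x) {g : ι → N → ℝ} (hg : ∀ i, SmF n (g i))
    (hgS : ∀ i x, g i (S x) = g i x) {F : N → N} (hF : Chain (n := n) S H F) :
    ∃ Φ Ψ : (ι → ℝ) → N → N, (∀ x, Φ 0 x = F x) ∧
      ContMDiff (𝓘(ℝ, ι → ℝ).prod (𝓡 n)) (𝓡 n) r (fun p : (ι → ℝ) × N => Φ p.1 p.2) ∧
      (∀ c, ContMDiff (𝓡 n) (𝓡 n) r (Ψ c)) ∧ (∀ c x, Ψ c (Φ c x) = x) ∧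
      (∀ c x, Φ c (Ψ c x) = x) ∧ (∀ c x, cf H g c x ≤ cf H g c (Φ c x)) ∧
      ∀ c x, Crit n (cf H g c) x → Φ c x = S x := by
  have hrle : (r : WithTop ℕ∞) ≤ ∞ := by exact_mod_cast le_top
  induction hF with
  | base =>
    refine ⟨fun _ => S, fun _ => S.symm, fun x => rfl, S.contMDiff.comp contMDiff_snd,
      fun c => S.symm.contMDiff, fun c x => S.symm_apply_apply x, fun c x => S.apply_symm_apply x,
      fun c x => ?_, fun c x _ => rfl⟩
    unfold cf
    simp only [hHS, hgS]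
    exact le_rfl
  | step F A φ hF hA hφ ih =>
    obtain ⟨Φ, Ψ, h1, h2, h3, h4, h5, h6, h7⟩ := ih
    have hX : SmoothField (A H) := hA.smooth H hH
    have hY : ∀ i, SmoothField (A (g i)) := fun i => hA.smooth _ (hg i)
    obtain ⟨Fl, f0, f1, f2, f3⟩ := exists_flow hX hY
    have fs : ∀ t : ℝ, ContMDiff (𝓘(ℝ, ι → ℝ).prod (𝓡 n)) (𝓡 n) r
        (fun p : (ι → ℝ) × N => Fl p.1 p.2 t) := by
      intro t
      have k1 : ContMDiff (𝓘(ℝ, ι → ℝ).prod (𝓡 n)) ((𝓘(ℝ, ι → ℝ).prod (𝓡 n)).prod 𝓘(ℝ, ℝ)) ∞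
          (fun p : (ι → ℝ) × N => (p, t)) := contMDiff_id.prodMk contMDiff_const
      exact (f2.comp k1).of_le hrle
    refine ⟨fun c x => Φ c (Fl c x 1), fun c x => Fl c (Ψ c x) (-1), fun x => ?_, ?_, fun c => ?_,
      fun c x => ?_, fun c x => ?_, fun c x => ?_, fun c x hx => ?_⟩
    · obtain ⟨γ, g1, g2, g3⟩ := hφ x
      have e1 : IsMIntegralCurve (I := 𝓡 n) (Fl 0 x) (A H) := by
        have k1 := f1 0 x
        have k2 : comb (A H) (fun i => A (g i)) 0 = A H := by
          funext y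
          unfold comb
          simp
        rwa [k2] at k1
      have e2 : Fl 0 x = γ := unique hX e1 g1 (by rw [f0, g2])
      show Φ 0 (Fl 0 x 1) = F (φ x)
      rw [e2, g3, h1]
    · exact h2.comp (contMDiff_fst.prodMk (fs 1))
    · have k1 : ContMDiff (𝓡 n) (𝓘(ℝ, ι → ℝ).prod (𝓡 n)) r (fun x : N => (c, Ψ c x)) :=
        contMDiff_const.prodMk (h3 c)
      exact (fs (-1)).comp k1
    · show Fl c (Ψ c (Φ c (Fl c x 1))) (-1) = x
      rw [h4, ← f3, add_neg_cancel, f0]
    · show Φ c (Fl c (Fl c (Ψ c x) (-1)) 1) = x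
      rw [← f3, neg_add_cancel, f0, h5]
    · refine le_trans ?_ (h6 c _)
      have k1 := mono_along (f1 c x) (cf_smooth hH hg c) (fun y => by
        rw [comb_eq hA hH hg]
        exact hA.nonneg _ (cf_smooth hH hg c) _)
      have k2 := k1 (zero_le_one (α := ℝ))
      simp only [f0] at k2
      exact k2
    · have k1 : Fl c x 1 = Fl c x 0 := by
        refine fixed_of_zero (smooth_comb1 hX hY c) (f1 c x) ?_ 1
        rw [f0, comb_eq hA hH hg]
        exact hA.crit _ (cf_smooth hH hg c) x hx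
      show Φ c (Fl c x 1) = S x
      rw [k1, f0]
      exact h7 c x hx

end Pool.Agent.V8H2.PG
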