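import Pool.Agent.V8H2.PG.Defs
import Pool.Agent.H826R2.Wein.Flw

set_option autoImplicit false
set_option linter.unusedSectionVars false

/-!
# Families of vector fields and their flows
-/

open scoped Manifold ContDiff Topology
open Set Filter MeasureTheory

universe u

noncomputable section

namespace Pool.Agent.V8H2.PG

open Pool.Agent.H718R2.G Pool.Agent.Helper186 Pool.Agent.H826R2.Wein

variable {n : ℕ} {N : Type u} [TopologicalSpace N] [T2Space N] [CompactSpace N]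
  [ChartedSpace (V n) N] [IsManifold (𝓡 n) ∞ N]

section comb

variable {ι : Type} [Fintype ι] {X : (x : N) → TangentSpace (𝓡 n) x}
  {Y : ι → (x : N) → TangentSpace (𝓡 n) x}

/-- the field `X + ∑ c_i Y_i` -/
def comb (X : (x : N) → TangentSpace (𝓡 n) x) (Y : ι → (x : N) → TangentSpace (𝓡 n) x)
    (c : ι → ℝ) (x : N) : TangentSpace (𝓡 n) x := X x + ∑ i, c i • Y i x

theorem smooth_comb (hX : SmoothField X) (hY : ∀ i, SmoothField (Y i)) :
    ContMDiff (𝓘(ℝ, ι → ℝ).prod (𝓡 n)) (𝓡 n).tangent ∞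
      (fun p : (ι → ℝ) × N => (⟨p.2, comb X Y p.1 p.2⟩ : TangentBundle (𝓡 n) N)) := by
  classical
  intro p₀
  have h0 : ContMDiffAt (𝓘(ℝ, ι → ℝ).prod (𝓡 n)) (𝓡 n).tangent ∞
      (fun p : (ι → ℝ) × N => (⟨p.2, X p.2⟩ : TangentBundle (𝓡 n) N)) p₀ :=
    (hX.comp contMDiff_snd).contMDiffAt
  have h1 : ∀ s : Finset ι, ContMDiffAt (𝓘(ℝ, ι → ℝ).prod (𝓡 n)) (𝓡 n).tangent ∞
      (fun p : (ι → ℝ) × N => (⟨p.2, ∑ i ∈ s, p.1 i • Y i p.2⟩ : TangentBundle (𝓡 n) N)) p₀ := by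
    intro s
    induction s using Finset.induction_on with
    | empty =>
      simp only [Finset.sum_empty]
      exact contMDiffAt_zero_along contMDiffAt_snd
    | insert i s hi ih =>
      simp only [Finset.sum_insert hi]
      refine contMDiffAt_add_along (f := fun p : (ι → ℝ) × N => p.2) ?_ ih
      refine contMDiffAt_smul_along (f := fun p : (ι → ℝ) × N => p.2)
        (a := fun p : (ι → ℝ) × N => p.1 i) ?_ ((hY i).comp contMDiff_snd).contMDiffAt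
      have k1 : ContMDiff 𝓘(ℝ, ι → ℝ) 𝓘(ℝ, ℝ) ∞ (fun c : ι → ℝ => c i) :=
        (contDiff_apply ℝ ℝ i).contMDiff
      exact (k1.comp contMDiff_fst).contMDiffAt
  exact contMDiffAt_add_along (f := fun p : (ι → ℝ) × N => p.2) h0 (h1 Finset.univ)

theorem smooth_comb1 (hX : SmoothField X) (hY : ∀ i, SmoothField (Y i)) (c : ι → ℝ) :
    SmoothField (comb X Y c) := by
  have h1 := smooth_comb hX hY
  have h2 : ContMDiff (𝓡 n) (𝓘(ℝ, ι → ℝ).prod (𝓡 n)) ∞ (fun x : N => (c, x)) :=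
    contMDiff_const.prodMk contMDiff_id
  exact h1.comp h2

/-- smooth vector fields on closed manifolds are complete -/
theorem complete {W : (x : N) → TangentSpace (𝓡 n) x} (hW : SmoothField W) (x : N) :
    ∃ c : ℝ → N, c 0 = x ∧ IsMIntegralCurve (I := 𝓡 n) c W :=
  complete_of_compact hW isCompact_univ (fun x hx => absurd (mem_univ x) hx) x

/-- integral curves are unique -/
theorem unique {W : (x : N) → TangentSpace (𝓡 n) x} (hW : SmoothField W) {a b : ℝ → N}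
    (ha : IsMIntegralCurve (I := 𝓡 n) a W) (hb : IsMIntegralCurve (I := 𝓡 n) b W)
    (h : a 0 = b 0) : a = b := by
  have : IsManifold (𝓡 n) 1 N := IsManifold.of_le (n := ∞) (by simp)
  exact isMIntegralCurve_Ioo_eq_of_contMDiff_boundaryless (t₀ := 0)
    (hW.of_le (by simp)) ha hb h

/-- the field `(0, X + ∑ c_i Y_i)` on the product of the parameter space and `N` -/
def prodField (X : (x : N) → TangentSpace (𝓡 n) x) (Y : ι → (x : N) → TangentSpace (𝓡 n) x)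
    (p : (ι → ℝ) × N) : TangentSpace (𝓘(ℝ, ι → ℝ).prod (𝓡 n)) p :=
  ((0 : ι → ℝ), comb X Y p.1 p.2)

theorem smooth_prodField (hX : SmoothField X) (hY : ∀ i, SmoothField (Y i)) :
    ContMDiff (𝓘(ℝ, ι → ℝ).prod (𝓡 n)) (𝓘(ℝ, ι → ℝ).prod (𝓡 n)).tangent ∞
      (fun p : (ι → ℝ) × N =>
        (⟨p, prodField X Y p⟩ : TangentBundle (𝓘(ℝ, ι → ℝ).prod (𝓡 n)) ((ι → ℝ) × N))) := by
  have h1 : ContMDiff (𝓘(ℝ, ι → ℝ).prod (𝓡 n)) 𝓘(ℝ, ι → ℝ).tangent ∞
      (fun p : (ι → ℝ) × N => (⟨p.1, (0 : ι → ℝ)⟩ : TangentBundle 𝓘(ℝ, ι → ℝ) (ι → ℝ))) := by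
    have h2 : ContMDiff 𝓘(ℝ, ι → ℝ) 𝓘(ℝ, ι → ℝ).tangent ∞
        (fun s : ι → ℝ => (⟨s, (0 : ι → ℝ)⟩ : TangentBundle 𝓘(ℝ, ι → ℝ) (ι → ℝ))) :=
      contMDiff_vectorSpace_iff_contDiff.2 contDiff_const
    exact h2.comp contMDiff_fst
  exact (contMDiff_equivTangentBundleProd_symm (I := 𝓘(ℝ, ι → ℝ)) (M := ι → ℝ) (I' := 𝓡 n)
    (M' := N)).comp (h1.prodMk (smooth_comb hX hY))

/-- the flows of the fields `X + ∑ c_i Y_i` depend smoothly on all variables -/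
theorem exists_flow (hX : SmoothField X) (hY : ∀ i, SmoothField (Y i)) :
    ∃ Fl : (ι → ℝ) → N → ℝ → N, (∀ c x, Fl c x 0 = x) ∧
      (∀ c x, IsMIntegralCurve (I := 𝓡 n) (Fl c x) (comb X Y c)) ∧
      ContMDiff ((𝓘(ℝ, ι → ℝ).prod (𝓡 n)).prod 𝓘(ℝ, ℝ)) (𝓡 n) ∞
        (fun p : ((ι → ℝ) × N) × ℝ => Fl p.1.1 p.1.2 p.2) ∧
      ∀ c x s t, Fl c x (s + t) = Fl c (Fl c x s) t := by
  have : IsManifold (𝓡 n) 1 N := IsManifold.of_le (n := ∞) (by simp)
  have : IsManifold (𝓘(ℝ, ι → ℝ).prod (𝓡 n)) 1 ((ι → ℝ) × N) :=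
    IsManifold.of_le (n := ∞) (by simp)
  choose Fl h0 h1 using fun c : ι → ℝ => complete (smooth_comb1 hX hY c)
  have h2 : ∀ p : (ι → ℝ) × N, IsMIntegralCurve (I := 𝓘(ℝ, ι → ℝ).prod (𝓡 n))
      (fun t => (p.1, Fl p.1 p.2 t)) (prodField X Y) := by
    intro p t
    have k1 : HasMFDerivAt 𝓘(ℝ, ℝ) 𝓘(ℝ, ι → ℝ) (fun _ : ℝ => p.1) t
        (0 : ℝ →L[ℝ] (ι → ℝ)) := hasMFDerivAt_const p.1 t
    have k2 := k1.prodMk (h1 p.1 p.2 t)
    refine k2.congr_mfderiv ?_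
    refine ContinuousLinearMap.ext fun (r : ℝ) => Prod.ext ?_ rfl
    show (0 : ι → ℝ) = r • (0 : ι → ℝ)
    rw [smul_zero]
  have h3 := contMDiff_flow (smooth_prodField hX hY)
    (Fl := fun p t => (p.1, Fl p.1 p.2 t)) (fun p => by
      show (p.1, Fl p.1 p.2 0) = p
      rw [h0]) h2
  refine ⟨Fl, h0, h1, ?_, fun c x s t => flow_add (smooth_comb1 hX hY c) (h0 c) (h1 c) x s t⟩
  exact contMDiff_snd.comp h3

end comb

end Pool.Agent.V8H2.PG
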