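import Pool.Agent.V8H2.PG.Defs
import Pool.Agent.H728R2.FA.Defs

set_option autoImplicit false
set_option linter.unusedSectionVars false

/-!
# Limit sets are chain recurrent
-/

open scoped Manifold ContDiff Topology Uniformity
open Set Filter MeasureTheory Metric

universe u

namespace Pool.Agent.V8H2.PG

open Pool.Agent.H728R2.FA (omegaLim)

variable {X : Type u} [MetricSpace X] [CompactSpace X]

theorem lebesgue {W : Set (X × X)} (hW : IsOpen W) (hd : ∀ x, (x, x) ∈ W) :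
    ∃ δ > 0, ∀ x y : X, dist x y < δ → (x, y) ∈ W := by
  have h1 : W ∈ 𝓤 X := by
    rw [← nhdsSet_diagonal_eq_uniformity]
    refine (hW.mem_nhdsSet).2 ?_
    rintro ⟨x, y⟩ hxy
    rw [mem_diagonal_iff] at hxy
    simp only at hxy
    rw [hxy]
    exact hd y
  obtain ⟨δ, hδ, h⟩ := Metric.mem_uniformity_dist.1 h1
  exact ⟨δ, hδ, fun x y hxy => h hxy⟩

theorem cluster {g : X → X} {p y : X} (hy : MapClusterPt y atTop fun n : ℕ => g^[n] p) :
    y ∈ omegaLim g p := by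
  intro U hU N
  have h1 := mapClusterPt_iff_frequently.1 hy U hU
  obtain ⟨n, hn, h2⟩ := frequently_atTop.1 h1 N
  exact ⟨n, hn, h2⟩

theorem near_omega {g : X → X} (p : X) {δ : ℝ} (hδ : 0 < δ) :
    ∃ N : ℕ, ∀ n ≥ N, ∃ z ∈ omegaLim g p, dist (g^[n] p) z < δ := by
  set O : Set X := ⋃ z ∈ omegaLim g p, ball z δ with hO
  have hOo : IsOpen O := isOpen_biUnion fun z _ => isOpen_ball
  have h1 : ∀ᶠ n : ℕ in atTop, g^[n] p ∈ O := by
    by_contra hcon
    have h1 : ∃ᶠ n : ℕ in atTop, g^[n] p ∈ Oᶜ := by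
      rw [Filter.not_eventually] at hcon
      exact hcon
    obtain ⟨y, hyO, hy⟩ := hOo.isClosed_compl.isCompact.exists_mapClusterPt_of_frequently h1
    exact hyO (mem_biUnion (cluster hy) (mem_ball_self hδ))
  obtain ⟨N, hN⟩ := eventually_atTop.1 h1
  refine ⟨N, fun n hn => ?_⟩
  obtain ⟨z, hz, hz'⟩ := mem_iUnion₂.1 (hN n hn)
  exact ⟨z, hz, hz'⟩

/-- **Limit sets are internally chain recurrent.** -/
theorem omega_chain {g : X → X} (hg : Continuous g) (p : X) {y : X} (hy : y ∈ omegaLim g p) :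
    ChainRecOn g (omegaLim g p) y := by
  classical
  intro W hW hd
  obtain ⟨δ, hδ, hWδ⟩ := lebesgue hW hd
  obtain ⟨δ₁, hδ₁, huc⟩ := Metric.uniformContinuous_iff.1
    (CompactSpace.uniformContinuous_of_continuous hg) (δ / 3) (by positivity)
  set δ' := min δ₁ (δ / 3) with hδ'
  have hδ'0 : 0 < δ' := lt_min hδ₁ (by positivity)
  obtain ⟨N, hN⟩ := near_omega (g := g) p hδ'0
  obtain ⟨n₁, hn₁, h1⟩ := hy _ (ball_mem_nhds y hδ'0) N
  obtain ⟨n₂, hn₂, h2⟩ := hy _ (ball_mem_nhds y hδ'0) (n₁ + 1)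
  have hz : ∀ n, ∃ z, N ≤ n → z ∈ omegaLim g p ∧ dist (g^[n] p) z < δ' := by
    intro n
    by_cases hn : N ≤ n
    · obtain ⟨z, hz1, hz2⟩ := hN n hn
      exact ⟨z, fun _ => ⟨hz1, hz2⟩⟩
    · exact ⟨y, fun h => absurd h hn⟩
  choose z hz using hz
  set w : ℕ → X := fun n => if n = n₁ ∨ n = n₂ then y else z n with hw
  have hwp : ∀ n, N ≤ n → w n ∈ omegaLim g p ∧ dist (g^[n] p) (w n) < δ' := by
    intro n hn
    by_cases h : n = n₁ ∨ n = n₂
    · have e : w n = y := if_pos h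
      rw [e]
      refine ⟨hy, ?_⟩
      rcases h with rfl | rfl
      · exact h1
      · exact h2
    · have e : w n = z n := if_neg h
      rw [e]
      exact hz n hn
  refine ⟨n₂ - n₁, fun i => w (n₁ + i), by omega, if_pos (Or.inl (by omega)),
    if_pos (Or.inr (by omega)), fun i _ => (hwp _ (by omega)).1, fun i _ => hWδ _ _ ?_⟩
  have k1 := (hwp (n₁ + i) (by omega)).2
  have k2 := (hwp (n₁ + (i + 1)) (by omega)).2
  have k3 : dist (g (w (n₁ + i))) (g (g^[n₁ + i] p)) < δ / 3 := by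
    apply huc
    rw [dist_comm]
    exact k1.trans_le (min_le_left _ _)
  have k4 : g (g^[n₁ + i] p) = g^[n₁ + (i + 1)] p :=
    (Function.iterate_succ_apply' g (n₁ + i) p).symm
  rw [k4] at k3
  have k5 := dist_triangle (g (w (n₁ + i))) (g^[n₁ + (i + 1)] p) (w (n₁ + (i + 1)))
  have k6 : δ' ≤ δ / 3 := min_le_right _ _
  show dist (g (w (n₁ + i))) (w (n₁ + (i + 1))) < δ
  linarith

end Pool.Agent.V8H2.PG
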