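import Pool.Agent.V8H2.PG.Chain
import Pool.Agent.V8H2.PG.Avoid
import Pool.Agent.V8H2.PG.Om
import Pool.Agent.V8H2.PK.Circ
import Pool.Agent.Y318.MN.Attr

set_option autoImplicit false
set_option linter.unusedSectionVars false

/-!
# Finitude near fibred systems with an energy
-/

open scoped Manifold ContDiff Topology
open Set Filter Metric MeasureTheory Function

universe u

namespace Pool.Agent.V8H2.PG

open Pool.Agent.H718R2.G Pool.Agent.Y318.MN Pool.Agent.TH80.OMS Pool.Agent.Y504.CO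
  Pool.Agent.W564.SC

open Pool.Agent.H728R2.FA (omegaLim FiniteAttractors)

variable {n : ℕ} {M : Type u} [TopologicalSpace M] [T2Space M] [CompactSpace M]
  [ChartedSpace (V n) M] [IsManifold (𝓡 n) ∞ M]

/-- small parameters stay in a given neighbourhood (after helper15) -/
theorem near {r : ℕ∞} (hr : 1 ≤ r) {P : Type} [NormedAddCommGroup P] [NormedSpace ℝ P]
    (H : P → DiffM n M r) (hfam : IsFam n M r H) (U : Set (DiffM n M r))
    (hU : IsOpen[strongTop n M r] U) (hFU : H 0 ∈ U) :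
    ∃ κ : ℝ, 0 < κ ∧ ∀ s : P, ‖s‖ < κ → H s ∈ U := by
  rcases isEmpty_or_nonempty M with hM | ⟨⟨z⟩⟩
  · refine ⟨1, one_pos, fun s _ => ?_⟩
    have : H s = H 0 := by
      ext y
      exact isEmptyElim y
    rw [this]
    exact hFU
  · exact Pool.Agent.TH80.CLX.fam_mem r hr H hfam z U hU hFU

variable {k : ℕ} {Q : Type u} [TopologicalSpace Q] [T2Space Q] [CompactSpace Q]
  [ChartedSpace (V k) Q] [IsManifold (𝓡 k) ∞ Q]

/-- critical points of `f ∘ π` -/
theorem crit_pull {π : M → Q} (hπ : ContMDiff (𝓡 n) (𝓡 k) ∞ π)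
    (hs : Subm n k π) {f : Q → ℝ}
    (hf : ContMDiff (𝓡 k) 𝓘(ℝ, ℝ) ∞ f) (x : M) :
    IsCrit n (fun x => f (π x)) x ↔ IsCrit k f (π x) := by
  have h1 : mfderiv (𝓡 n) 𝓘(ℝ, ℝ) (f ∘ π) x =
      (mfderiv (𝓡 k) 𝓘(ℝ, ℝ) f (π x)).comp (mfderiv (𝓡 n) (𝓡 k) π x) :=
    mfderiv_comp x (hf.mdifferentiableAt (by simp)) (hπ.mdifferentiableAt (by simp))
  constructor
  · intro h
    have h2 := hs f hf x (crit_iff.2 h)
    exact crit_iff.1 h2
  · intro h
    have h2 : mfderiv (𝓡 k) 𝓘(ℝ, ℝ) f (π x) = 0 := h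
    show mfderiv (𝓡 n) 𝓘(ℝ, ℝ) (f ∘ π) x = 0
    rw [h1, h2]
    exact ContinuousLinearMap.zero_comp _

/-- chain recurrence depends only on the values of the map on the set -/
theorem ChainRecOn.mono {X : Type*} [TopologicalSpace X] {G S : X → X} {K L : Set X} {z : X}
    (h : ChainRecOn G K z) (hKL : K ⊆ L) (hGS : ∀ x ∈ K, G x = S x) : ChainRecOn S L z := by
  intro W hW hd
  obtain ⟨m, x, hm, h0, h1, h2, h3⟩ := h W hW hd
  refine ⟨m, x, hm, h0, h1, fun i hi => hKL (h2 i hi), fun i hi => ?_⟩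
  rw [← hGS _ (h2 i hi.le)]
  exact h3 i hi

theorem omega_sub_chain [TopologicalSpace.MetrizableSpace M] (g : M ≃ₜ M) (p : M) :
    ∀ y ∈ omegaLim g p, ChainRecOn g (omegaLim g p) y := by
  let _ : MetricSpace M := TopologicalSpace.metrizableSpaceMetric M
  intro y hy
  exact omega_chain g.continuous p hy

/-- **The dynamical part.** -/
theorem core_main {r : ℕ∞} (hr : 1 ≤ r) {π : M → Q} (hπ : SmMap n k π) (hsub : Subm n k π)
    {ηc : Q → ℝ} (hηs : SmFun k ηc) (hc1 : {q | IsCrit k ηc q}.Finite) (S D : DiffM n M r)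
    (hfib : ∀ x, π (S x) = π x) (hmono : ∀ x, ηc (π x) ≤ ηc (π (D x)))
    (hDS : ∀ x, IsCrit n (fun x => ηc (π x)) x → D x = S x)
    (hgood0 : ∀ q, IsCrit k ηc q → GoodOn S (π ⁻¹' {q}))
    (U : Set (DiffM n M r)) (hU : IsOpen[strongTop n M r] U) (hDU : D ∈ U) :
    ∃ G ∈ U, ∀ (_ : MeasurableSpace M) (μ : Measure M), FiniteAttractors μ G := by
  classical
  have hmet := exists_metric n M
  set h : M → ℝ := fun x => ηc (π x) with hh
  have hhs : SmF n h := ContMDiff.comp hηs hπ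
  have hcrit : ∀ x, IsCrit n h x ↔ IsCrit k ηc (π x) := fun x =>
    crit_pull hπ hsub hηs x
  obtain ⟨Θ, G, hGU, hG, hΘ⟩ := exists_push hhs hr D U hU hDU
  have hGS : ∀ x, IsCrit k ηc (π x) → G x = S x := by
    intro x hx
    have hx' : IsCrit n h x := (hcrit x).2 hx
    rw [hG, hΘ.fix x hx']
    exact hDS x hx'
  have hSfib : ∀ q, S '' (π ⁻¹' {q}) = π ⁻¹' {q} := by
    intro q
    apply Subset.antisymm
    · rintro _ ⟨x, hx, rfl⟩
      show π (S x) = q
      rw [hfib]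
      exact hx
    · intro y hy
      refine ⟨S.symm y, ?_, S.apply_symm_apply y⟩
      show π (S.symm y) = q
      rw [← hfib, S.apply_symm_apply]
      exact hy
  -- limit sets lie in the critical fibres
  have hom : ∀ p, omegaLim G p ⊆ {x | IsCrit k ηc (π x)} := by
    intro p x hx
    have k1 := omega_sub hhs.continuous (fun x => hmono x) hG hΘ (omegaLim_sub_omega _ _ hx)
    exact (hcrit x).1 (k1 0).1
  -- the fibres
  set Pf := hc1.toFinset with hPf
  set e1 := Pf.equivFin with he1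
  set qq : Fin Pf.card → Q := fun i => (e1.symm i : Q) with hqq
  have hqc : ∀ i, IsCrit k ηc (qq i) := fun i => hc1.mem_toFinset.1 (e1.symm i).2
  have hqinj : ∀ i j, qq i = qq j → i = j := fun i j hij =>
    e1.symm.injective (Subtype.ext hij)
  have hqsurj : ∀ q, IsCrit k ηc q → ∃ i, qq i = q := by
    intro q hq
    refine ⟨e1 ⟨q, hc1.mem_toFinset.2 hq⟩, ?_⟩
    show ((e1.symm (e1 _)) : Q) = q
    rw [e1.symm_apply_apply]
  have hGfib : ∀ i, ∀ x ∈ π ⁻¹' {qq i}, G x = S x := fun i x hx => hGS x (by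
    have : π x = qq i := hx
    rw [this]
    exact hqc i)
  have hone : ∀ p, ∃ i, omegaLim G.toHomeomorph p ⊆ π ⁻¹' {qq i} := by
    refine cover_of_metric G.toHomeomorph (fun i => π ⁻¹' {qq i})
      (fun i => isClosed_singleton.preimage (ContMDiff.continuous hπ)) (fun i => ?_)
      (fun i j hij => ?_) (fun p x hx => ?_)
    · rw [← hSfib (qq i)]
      have k1 : G.toHomeomorph '' (S '' (π ⁻¹' {qq i})) = S '' (S '' (π ⁻¹' {qq i})) := by
        rw [hSfib]
        exact image_congr (hGfib i)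
      rw [k1, hSfib, hSfib]
    · rw [Set.disjoint_left]
      intro x hx hx'
      apply hij
      apply hqinj
      have k1 : π x = qq i := hx
      have k2 : π x = qq j := hx'
      rw [← k1, k2]
    · obtain ⟨i, hi⟩ := hqsurj (π x) (hom p hx)
      exact mem_iUnion.2 ⟨i, hi.symm⟩
  -- the pieces
  have hgood : ∀ i, GoodOn S (π ⁻¹' {qq i}) := fun i => hgood0 (qq i) (hqc i)
  choose s Λ l1 l2 l3 l4 l5 l6 using hgood
  set e2 := Fintype.equivFin (Σ i : Fin Pf.card, Fin (s i)) with he2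
  set L : Fin (Fintype.card (Σ i : Fin Pf.card, Fin (s i))) → Set M := fun a =>
    Λ (e2.symm a).1 (e2.symm a).2 with hL
  have hGL : ∀ a, ∀ x ∈ L a, G x = S x := fun a x hx => hGfib _ x (l2 _ _ hx)
  have c1 : ∀ a, G.toHomeomorph '' L a = L a := by
    intro a
    have k1 : G.toHomeomorph '' L a = S '' L a := image_congr (hGL a)
    rw [k1]
    exact l3 _ _
  have c2 : ∀ a b, a ≠ b → Disjoint (L a) (L b) := by
    intro a b hab
    have hab' : e2.symm a ≠ e2.symm b := fun h => hab (e2.symm.injective h)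
    show Disjoint (Λ (e2.symm a).1 (e2.symm a).2) (Λ (e2.symm b).1 (e2.symm b).2)
    generalize e2.symm a = A at hab' ⊢
    generalize e2.symm b = B at hab' ⊢
    obtain ⟨i, x⟩ := A
    obtain ⟨j, y⟩ := B
    by_cases hij : i = j
    · subst hij
      exact l4 i x y (fun h => hab' (by rw [h]))
    · refine Set.disjoint_left.2 fun z hz hz' => hij (hqinj _ _ ?_)
      have k1 : π z = qq i := l2 _ _ hz
      have k2 : π z = qq j := l2 _ _ hz'
      rw [← k1, k2]
  have c3 : ∀ a, ∃ x ∈ L a, L a ⊆ closure (range fun k : ℕ => G.toHomeomorph^[k] x) := by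
    intro a
    obtain ⟨x, hx, hd⟩ := l5 (e2.symm a).1 (e2.symm a).2
    refine ⟨x, hx, ?_⟩
    have e : (fun k : ℕ => G.toHomeomorph^[k] x) = fun k : ℕ => S^[k] x := by
      funext k
      have key : G^[k] x = S^[k] x ∧ S^[k] x ∈ L a := by
        induction k with
        | zero => exact ⟨rfl, hx⟩
        | succ k ih =>
          rw [iterate_succ_apply', iterate_succ_apply', ih.1]
          refine ⟨hGL a _ ih.2, ?_⟩
          have : S (S^[k] x) ∈ S '' L a := mem_image_of_mem _ ih.2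
          have k1 : S '' L a = L a := l3 _ _
          rwa [k1] at this
      exact key.1
    rw [e]
    exact hd
  have c4 : ∀ p, omegaLim G.toHomeomorph p ⊆ ⋃ a, L a := by
    intro p x hx
    obtain ⟨i, hi⟩ := hone p
    have k1 := omega_sub_chain G.toHomeomorph p x hx
    have k2 : ChainRecOn S (π ⁻¹' {qq i}) x := k1.mono hi fun y hy => hGfib i y (hi hy)
    obtain ⟨j, hj⟩ := l6 i x k2
    refine mem_iUnion.2 ⟨e2 ⟨i, j⟩, ?_⟩
    show x ∈ Λ (e2.symm (e2 ⟨i, j⟩)).1 (e2.symm (e2 ⟨i, j⟩)).2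
    rw [e2.symm_apply_apply]
    exact hj
  exact ⟨G, hGU, fun _ μ => attr_of_metric μ G.toHomeomorph L c1 c3
    (cover_of_metric G.toHomeomorph L (fun a => l1 _ _) c1 c2 c4)⟩

/-- the composition with the flow along the fibres -/
noncomputable def flowDiff {r : ℕ∞} {π : M → Q} {R : ℝ → M → M} (hR : FlowAlong n π R) (D : DiffM n M r)
    (t : ℝ) : DiffM n M r where
  toFun := fun x => R t (D x)
  invFun := fun y => D.symm (R (-t) y)
  left_inv := fun x => by
    show D.symm (R (-t) (R t (D x))) = x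
    rw [← hR.add, neg_add_cancel, hR.zero, D.symm_apply_apply]
  right_inv := fun y => by
    show R t (D (D.symm (R (-t) y))) = y
    rw [D.apply_symm_apply, ← hR.add, add_neg_cancel, hR.zero]
  contMDiff_toFun := by
    have hrle : (r : WithTop ℕ∞) ≤ ∞ := by exact_mod_cast le_top
    exact ((PK.FlowAlong.cont hR t).of_le hrle).comp D.contMDiff
  contMDiff_invFun := by
    have hrle : (r : WithTop ℕ∞) ≤ ∞ := by exact_mod_cast le_top
    exact D.symm.contMDiff.comp ((PK.FlowAlong.cont hR (-t)).of_le hrle)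

/-- **The theorem for one map.** -/
theorem fibre_main {r : ℕ∞} (hr : 1 ≤ r) {π : M → Q} {S F : DiffM n M r} {η : Q → ℝ}
    (hD : FibreData n k π S η) (hch : Chain (n := n) S (fun x => η (π x)) F)
    (U : Set (DiffM n M r)) (hU : IsOpen[strongTop n M r] U) (hFU : F ∈ U) :
    ∃ G ∈ U, ∀ (_ : MeasurableSpace M) (μ : Measure M), FiniteAttractors μ G := by
  classical
  have hrle : (r : WithTop ℕ∞) ≤ ∞ := by exact_mod_cast le_top
  have hAe : AeGood n k π S := by
    rcases hD.good with h | h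
    · exact PK.circle_good S.contMDiff.continuous h
    · exact h
  obtain ⟨R, hR, hnull⟩ := hAe
  obtain ⟨E, hE⟩ : ∃ E : Set Q,
      E = {q | ¬ ∀ᵐ t : ℝ, GoodOn (fun x => R t (S x)) (π ⁻¹' {q})} := ⟨_, rfl⟩
  rw [← hE] at hnull
  obtain ⟨m, e, he, hemb, hed⟩ := exists_embedding_euclidean_of_compact (M := Q) (I := 𝓡 k)
  have hid : ContMDiff (𝓡 k) (𝓡 k) ∞ (id : Q → Q) := contMDiff_id
  set g : (Fin (3 * 1 + 2) → Option (Fin m)) → Q → ℝ :=
    Pool.Agent.V8H61.PM.gN (id : Q → Q) 1 e with hg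
  have hgs : ∀ i, ContMDiff (𝓡 k) 𝓘(ℝ, ℝ) ∞ (g i) := fun i =>
    Pool.Agent.V8H61.PM.gN_smooth hid 1 he i
  have hDsm : ContMDiff (𝓡 n) (𝓡 k) ∞ π := hD.smooth
  have hDen : ContMDiff (𝓡 k) 𝓘(ℝ, ℝ) ∞ η := hD.energy
  have hgM : ∀ i, SmF n (fun x => g i (π x)) := fun i => (hgs i).comp hDsm
  have hHM : SmF n (fun x => η (π x)) := hDen.comp hDsm
  obtain ⟨Φ, Ψ, h1, h2, h3, h4, h5, h6, h7⟩ := chain_family S hHM
    (fun x => by show η (π (S x)) = η (π x); rw [hD.fib]) hgM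
    (fun i x => by show g i (π (S x)) = g i (π x); rw [hD.fib]) hch
  have hΦc : ∀ c, ContMDiff (𝓡 n) (𝓡 n) r (Φ c) := by
    intro c
    have k1 : ContMDiff (𝓡 n) (𝓘(ℝ, ((Fin (3 * 1 + 2) → Option (Fin m)) → ℝ)).prod (𝓡 n)) r
        (fun x : M => (c, x)) := contMDiff_const.prodMk contMDiff_id
    exact h2.comp k1
  set D : ((Fin (3 * 1 + 2) → Option (Fin m)) → ℝ) → DiffM n M r := fun c =>
    { toFun := Φ c
      invFun := Ψ c
      left_inv := h4 c
      right_inv := h5 c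
      contMDiff_toFun := hΦc c
      contMDiff_invFun := h3 c } with hDd
  have hDapp : ∀ c x, D c x = Φ c x := fun c x => rfl
  have hD0 : D 0 = F := by
    ext x
    exact h1 x
  have hfam : IsFam n M r D := fun y => h2.contMDiffAt
  obtain ⟨κ, hκ, hDU⟩ := near hr D hfam U hU (by rw [hD0]; exact hFU)
  have hae1 := Pool.Agent.V8H61.PM.ae_finite_crit hid le_rfl (fun x => rfl) he hemb.injective hed
    hDen
  have hae2 := ae_avoid he hed hDen hnull
  obtain ⟨c, hcκ, hc1, hc2⟩ : ∃ c : (Fin (3 * 1 + 2) → Option (Fin m)) → ℝ, ‖c‖ < κ ∧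
      {q | IsCrit k (Pool.Agent.V8H61.PM.hcf (id : Q → Q) 1 e η c) q}.Finite ∧
      ∀ q, IsCrit k (Pool.Agent.V8H61.PM.hcf (id : Q → Q) 1 e η c) q →
        q ∉ E := by
    by_contra hcon
    push Not at hcon
    have hae := hae1.and hae2
    have hsub : ball (0 : (Fin (3 * 1 + 2) → Option (Fin m)) → ℝ) κ ⊆
        {c | ¬ ({q | IsCrit k (Pool.Agent.V8H61.PM.hcf (id : Q → Q) 1 e η c) q}.Finite ∧
          ∀ q, IsCrit k (Pool.Agent.V8H61.PM.hcf (id : Q → Q) 1 e η c) q →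
            q ∉ E)} := by
      intro c hc
      rw [mem_ball_zero_iff] at hc
      rintro ⟨k1, k2⟩
      obtain ⟨q, k3, k4⟩ := hcon c hc k1
      exact k2 q k3 k4
    have h0 := measure_mono_null hsub (ae_iff.1 hae)
    exact (measure_ball_pos volume 0 hκ).ne' h0
  set ηc : Q → ℝ := Pool.Agent.V8H61.PM.hcf (id : Q → Q) 1 e η c with hηc
  have hηs : ContMDiff (𝓡 k) 𝓘(ℝ, ℝ) ∞ ηc := Pool.Agent.V8H61.PM.hcf_smooth hid 1 he hDen c
  have hηh : ∀ x, cf (fun x => η (π x)) (fun i x => g i (π x)) c x = ηc (π x) := fun x => rfl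
  -- the flow along the fibres
  have hfam2 : IsFam n M r (flowDiff hR (D c)) := by
    have h2 : ContMDiff (𝓘(ℝ, ℝ).prod (𝓡 n)) (𝓡 n) r (fun p : ℝ × M => R p.1 (D c p.2)) :=
      (hR.smooth.of_le hrle).comp
        (contMDiff_fst.prodMk ((hΦc c).comp contMDiff_snd))
    exact fun y => h2.contMDiffAt
  have hD00 : flowDiff hR (D c) 0 = D c := by
    ext x
    exact hR.zero _
  obtain ⟨κ', hκ', hDU'⟩ := near hr _ hfam2 U hU (by rw [hD00]; exact hDU c hcκ)
  have hfae : ∀ᵐ t : ℝ, ∀ q ∈ {q | IsCrit k ηc q}, GoodOn (fun x => R t (S x)) (π ⁻¹' {q}) := by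
    rw [ae_ball_iff hc1.countable]
    intro q hq
    have k1 := hc2 q hq
    rw [hE] at k1
    exact not_not.1 k1
  obtain ⟨t, htκ, htg⟩ : ∃ t : ℝ, ‖t‖ < κ' ∧
      ∀ q ∈ {q | IsCrit k ηc q}, GoodOn (fun x => R t (S x)) (π ⁻¹' {q}) := by
    by_contra hcon
    push Not at hcon
    have hsub : ball (0 : ℝ) κ' ⊆ {t | ¬ ∀ q ∈ {q | IsCrit k ηc q},
        GoodOn (fun x => R t (S x)) (π ⁻¹' {q})} := by
      intro t ht
      rw [mem_ball_zero_iff] at ht
      obtain ⟨q, k3, k4⟩ := hcon t ht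
      exact fun hh => k4 (hh q k3)
    have h0 := measure_mono_null hsub (ae_iff.1 hfae)
    exact (measure_ball_pos volume 0 hκ').ne' h0
  refine core_main hr hD.smooth hD.subm hηs hc1 (flowDiff hR S t) (flowDiff hR (D c) t)
    (fun x => ?_) (fun x => ?_) (fun x hx => ?_) (fun q hq => htg q hq) U hU (hDU' t htκ)
  · show π (R t (S x)) = π x
    rw [hR.fib, hD.fib]
  · show ηc (π x) ≤ ηc (π (R t (Φ c x)))
    rw [hR.fib, ← hηh, ← hηh]
    exact h6 c x
  · show R t (Φ c x) = R t (S x)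
    rw [h7 c x (crit_iff.2 hx)]

/-- **Finitude of attractors near fibred systems with an energy.** -/
theorem closure_main {r : ℕ∞} (hr : 1 ≤ r) (F : DiffM n M r)
    (hF : F ∈ @closure _ (strongTop n M r) {F' : DiffM n M r | Fibred n F'})
    (U : Set (DiffM n M r)) (hU : IsOpen[strongTop n M r] U) (hFU : F ∈ U) :
    ∃ G ∈ U, ∀ (_ : MeasurableSpace M) (μ : Measure M), FiniteAttractors μ G := by
  let := strongTop n M r
  obtain ⟨F', hF'U, k, Q, i1, i2, i3, i4, i5, π, S, η, hD, hch⟩ := mem_closure_iff.1 hF U hU hFU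
  exact fibre_main hr hD hch U hU hF'U

end Pool.Agent.V8H2.PG
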